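import Mathlib

/-!
# Complex projective space as a compact complex manifold

`PX N`: the hermitian `(N+1) × (N+1)` matrices of rank one and trace one.
-/

set_option autoImplicit false

open scoped Manifold ContDiff Topology ComplexConjugate
open Set Filter

namespace Pool.Agent.Seat73.PP

/-- The set of hermitian matrices of rank one and trace one. -/
def pset (N : ℕ) : Set (Fin (N + 1) → Fin (N + 1) → ℂ) :=
  {P | (∀ i j, conj (P i j) = P j i) ∧ (∀ i j k l, P i j * P k l = P i l * P k j) ∧
    ∑ i, P i i = 1}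

/-- Complex projective space. -/
def PX (N : ℕ) : Type := pset N

instance (N : ℕ) : TopologicalSpace (PX N) := inferInstanceAs (TopologicalSpace (pset N))
instance (N : ℕ) : T2Space (PX N) := inferInstanceAs (T2Space (pset N))
instance (N : ℕ) : SecondCountableTopology (PX N) :=
  inferInstanceAs (SecondCountableTopology (pset N))

variable {N : ℕ}

/-- entries -/
def PX.ent (P : PX N) (i j : Fin (N + 1)) : ℂ := P.1 i j

theorem ent_continuous (i j : Fin (N + 1)) : Continuous fun P : PX N => P.ent i j := by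
  have h : Continuous fun P : pset N => P.1 i j :=
    (continuous_apply j).comp ((continuous_apply i).comp continuous_subtype_val)
  exact h

theorem PX.conj (P : PX N) (i j) : conj (P.ent i j) = P.ent j i := P.2.1 i j
theorem PX.rk (P : PX N) (i j k l) : P.ent i j * P.ent k l = P.ent i l * P.ent k j := P.2.2.1 i j k l
theorem PX.tr (P : PX N) : ∑ i, P.ent i i = 1 := P.2.2.2

theorem PX.ext' {P Q : PX N} (h : ∀ i j, P.ent i j = Q.ent i j) : P = Q :=
  Subtype.ext (funext fun i => funext fun j => h i j)

theorem PX.sq (P : PX N) (i j) : P.ent i i * P.ent j j = ((‖P.ent i j‖ ^ 2 : ℝ) : ℂ) := by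
  rw [P.rk i i j j, ← P.conj i j, Complex.mul_conj, Complex.normSq_eq_norm_sq]

theorem PX.real (P : PX N) (i) : P.ent i i = (((P.ent i i).re : ℝ) : ℂ) := by
  have h := P.conj i i
  exact (Complex.conj_eq_iff_re.1 h).symm

theorem PX.diag (P : PX N) (i) : (P.ent i i).re = ∑ j, ‖P.ent i j‖ ^ 2 := by
  have h : P.ent i i * ∑ j, P.ent j j = ∑ j, ((‖P.ent i j‖ ^ 2 : ℝ) : ℂ) := by
    rw [Finset.mul_sum]
    exact Finset.sum_congr rfl fun j _ => P.sq i j
  rw [P.tr, mul_one] at h
  have h2 := congrArg Complex.re h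
  rw [h2, ← Complex.ofReal_sum, Complex.ofReal_re]

theorem PX.diag_nonneg (P : PX N) (i) : 0 ≤ (P.ent i i).re := by
  rw [P.diag]; positivity

theorem PX.diag_le (P : PX N) (i) : (P.ent i i).re ≤ 1 := by
  have h := congrArg Complex.re P.tr
  rw [Complex.re_sum, Complex.one_re] at h
  rw [← h]
  exact Finset.single_le_sum (f := fun i => (P.ent i i).re) (fun j _ => P.diag_nonneg j)
    (Finset.mem_univ i)

theorem PX.norm_le (P : PX N) (i j) : ‖P.ent i j‖ ≤ 1 := by
  have h1 := P.diag i
  have h2 : ‖P.ent i j‖ ^ 2 ≤ ∑ j, ‖P.ent i j‖ ^ 2 :=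
    Finset.single_le_sum (f := fun j => ‖P.ent i j‖ ^ 2) (fun _ _ => by positivity)
      (Finset.mem_univ j)
  have h3 := P.diag_le i
  nlinarith [norm_nonneg (P.ent i j)]

theorem pset_closed : IsClosed (pset N) := by
  have e : pset N = (⋂ i, ⋂ j, {P | conj (P i j) = P j i}) ∩
      ((⋂ i, ⋂ j, ⋂ k, ⋂ l, {P | P i j * P k l = P i l * P k j}) ∩ {P | ∑ i, P i i = 1}) := by
    ext P
    simp only [pset, mem_inter_iff, mem_iInter, mem_ofPred_eq]
  rw [e]
  refine IsClosed.inter ?_ (IsClosed.inter ?_ ?_)
  · refine isClosed_iInter fun i => isClosed_iInter fun j => isClosed_eq ?_ ?_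
    · exact Complex.continuous_conj.comp (by fun_prop)
    · fun_prop
  · refine isClosed_iInter fun i => isClosed_iInter fun j => isClosed_iInter fun k =>
      isClosed_iInter fun l => isClosed_eq (by fun_prop) (by fun_prop)
  · exact isClosed_eq (by fun_prop) (by fun_prop)

instance : CompactSpace (PX N) := by
  have h : IsCompact (pset N) := by
    refine IsCompact.of_isClosed_subset (s := Metric.closedBall 0 1)
      (isCompact_closedBall _ _) pset_closed ?_
    intro P hP
    rw [mem_closedBall_zero_iff]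
    refine (pi_norm_le_iff_of_nonneg zero_le_one).2 fun i =>
      (pi_norm_le_iff_of_nonneg zero_le_one).2 fun j => ?_
    exact PX.norm_le (⟨P, hP⟩ : PX N) i j
  exact isCompact_iff_compactSpace.1 h

/-- squared norm -/
noncomputable def nsq (v : Fin (N + 1) → ℂ) : ℝ := ∑ i, ‖v i‖ ^ 2

theorem nsq_continuous : Continuous (nsq (N := N)) := by unfold nsq; fun_prop

theorem nsq_pos {v : Fin (N + 1) → ℂ} (hv : v ≠ 0) : 0 < nsq v := by
  obtain ⟨i, hi⟩ : ∃ i, v i ≠ 0 := by
    by_contra h
    push Not at h
    exact hv (funext h)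
  have h1 : 0 < ‖v i‖ ^ 2 := by positivity
  exact h1.trans_le (Finset.single_le_sum (f := fun i => ‖v i‖ ^ 2) (fun _ _ => by positivity)
    (Finset.mem_univ i))

theorem nsq_ne {v : Fin (N + 1) → ℂ} (hv : v ≠ 0) : ((nsq v : ℝ) : ℂ) ≠ 0 := by
  exact_mod_cast (nsq_pos hv).ne'

theorem sum_self (v : Fin (N + 1) → ℂ) : ∑ i, v i * conj (v i) = ((nsq v : ℝ) : ℂ) := by
  unfold nsq
  rw [Complex.ofReal_sum]
  refine Finset.sum_congr rfl fun i _ => ?_
  rw [Complex.mul_conj, Complex.normSq_eq_norm_sq]

/-- the line spanned by `v` -/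
noncomputable def mk (v : Fin (N + 1) → ℂ) (hv : v ≠ 0) : PX N :=
  ⟨fun i j => v i * conj (v j) / nsq v, by
    have hn := nsq_ne hv
    refine ⟨fun i j => ?_, fun i j k l => ?_, ?_⟩
    · simp only [map_div₀, map_mul, Complex.conj_conj, Complex.conj_ofReal]
      rw [mul_comm]
    · ring
    · rw [← Finset.sum_div, sum_self, div_self hn]⟩

theorem mk_ent (v : Fin (N + 1) → ℂ) (hv : v ≠ 0) (i j) :
    (mk v hv).ent i j = v i * conj (v j) / nsq v := rfl

theorem mk_eq {v w : Fin (N + 1) → ℂ} (hv : v ≠ 0) (hw : w ≠ 0) (c : ℂ) (h : ∀ i, w i = c * v i) :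
    mk w hw = mk v hv := by
  have hc : c ≠ 0 := by
    rintro rfl
    exact hw (funext fun i => by rw [h i, zero_mul]; rfl)
  have hn : nsq w = ‖c‖ ^ 2 * nsq v := by
    unfold nsq
    rw [Finset.mul_sum]
    refine Finset.sum_congr rfl fun i _ => ?_
    rw [h i, norm_mul, mul_pow]
  apply PX.ext'
  intro i j
  have h1 := nsq_ne hv
  have h2 : ((‖c‖ ^ 2 : ℝ) : ℂ) = c * conj c := by
    rw [Complex.mul_conj, Complex.normSq_eq_norm_sq]
  have h3 : conj c ≠ 0 := by simpa using hc
  rw [mk_ent, mk_ent, hn, h i, h j, Complex.ofReal_mul, h2, map_mul]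
  field_simp

theorem exists_diag (P : PX N) : ∃ i, P.ent i i ≠ 0 := by
  by_contra h
  push Not at h
  have := P.tr
  simp [h] at this

/-- insertion of `1` at the place `i` -/
def ins (i : Fin (N + 1)) (y : Fin N → ℂ) : Fin (N + 1) → ℂ := i.insertNth (1 : ℂ) y

@[simp] theorem ins_self (i : Fin (N + 1)) (y : Fin N → ℂ) : ins i y i = 1 := by simp [ins]
@[simp] theorem ins_succAbove (i : Fin (N + 1)) (y : Fin N → ℂ) (k) :
    ins i y (i.succAbove k) = y k := by simp [ins]

theorem ins_ne (i : Fin (N + 1)) (y : Fin N → ℂ) : ins i y ≠ 0 := by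
  intro h
  have := congrFun h i
  simp at this

theorem ins_continuous (i : Fin (N + 1)) : Continuous (ins i) := by
  refine continuous_pi fun j => ?_
  rcases Fin.eq_self_or_eq_succAbove i j with rfl | ⟨k, rfl⟩
  · simp only [ins_self]; fun_prop
  · simp only [ins_succAbove]; fun_prop

theorem mk_continuous {Y : Type*} [TopologicalSpace Y] {v : Y → Fin (N + 1) → ℂ}
    (hv : Continuous v) (h : ∀ y, v y ≠ 0) : Continuous fun y => mk (v y) (h y) := by
  apply Continuous.subtype_mk
  refine continuous_pi fun i => continuous_pi fun j => ?_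
  apply Continuous.div
  · exact ((continuous_apply i).comp hv).mul (Complex.continuous_conj.comp ((continuous_apply j).comp hv))
  · exact Complex.continuous_ofReal.comp (nsq_continuous.comp hv)
  · exact fun y => nsq_ne (h y)

/-- The affine charts. -/
noncomputable def ch (i : Fin (N + 1)) : OpenPartialHomeomorph (PX N) (Fin N → ℂ) where
  toFun P k := P.ent (i.succAbove k) i / P.ent i i
  invFun y := mk (ins i y) (ins_ne i y)
  source := {P | P.ent i i ≠ 0}
  target := univ
  map_source' _ _ := mem_univ _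
  map_target' y _ := by
    show (mk (ins i y) (ins_ne i y)).ent i i ≠ 0
    rw [mk_ent, ins_self]
    have := nsq_ne (ins_ne i y)
    simpa using this
  left_inv' P hP := by
    have hP' : P.ent i i ≠ 0 := hP
    have key : ∀ j, ins i (fun k => P.ent (i.succAbove k) i / P.ent i i) j =
        (P.ent i i)⁻¹ * P.ent j i := by
      intro j
      rcases Fin.eq_self_or_eq_succAbove i j with rfl | ⟨k, rfl⟩
      · rw [ins_self, inv_mul_cancel₀ hP']
      · rw [ins_succAbove]; ring
    have hv : (fun j => P.ent j i) ≠ 0 := fun h => hP' (congrFun h i)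
    show mk (ins i (fun k => P.ent (i.succAbove k) i / P.ent i i)) _ = P
    rw [mk_eq hv (ins_ne _ _) _ key]
    have hn : ((nsq (fun j => P.ent j i) : ℝ) : ℂ) = P.ent i i := by
      rw [← sum_self]
      have : ∀ j, P.ent j i * conj (P.ent j i) = P.ent i i * P.ent j j := by
        intro j
        rw [P.conj, P.rk]
        ring
      simp only [this]
      rw [← Finset.mul_sum, P.tr, mul_one]
    apply PX.ext'
    intro j k
    rw [mk_ent, hn, P.conj, P.rk j i i k, mul_div_assoc, div_self hP', mul_one]
  right_inv' y _ := by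
    funext k
    show (mk (ins i y) (ins_ne i y)).ent (i.succAbove k) i /
      (mk (ins i y) (ins_ne i y)).ent i i = y k
    rw [mk_ent, mk_ent, ins_self, ins_succAbove]
    have := nsq_ne (ins_ne i y)
    simp only [map_one, mul_one]
    field_simp
  open_source := (isOpen_compl_singleton (x := (0 : ℂ))).preimage (ent_continuous i i)
  open_target := isOpen_univ
  continuousOn_toFun := by
    refine continuousOn_pi.2 fun k => ?_
    exact (ent_continuous _ _).continuousOn.div (ent_continuous _ _).continuousOn fun P hP => hP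
  continuousOn_invFun := (mk_continuous (ins_continuous i) (ins_ne i)).continuousOn

theorem ch_apply (i : Fin (N + 1)) (P : PX N) (k) :
    ch i P k = P.ent (i.succAbove k) i / P.ent i i := rfl

theorem ch_symm (i : Fin (N + 1)) (y : Fin N → ℂ) : (ch i).symm y = mk (ins i y) (ins_ne i y) := rfl

theorem ch_source (i : Fin (N + 1)) : (ch i).source = {P : PX N | P.ent i i ≠ 0} := rfl
theorem ch_target (i : Fin (N + 1)) : (ch (N := N) i).target = univ := rfl

/-- the chart in which the point lies -/
noncomputable def ci (P : PX N) : Fin (N + 1) := (exists_diag P).choose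

theorem ci_spec (P : PX N) : P.ent (ci P) (ci P) ≠ 0 := (exists_diag P).choose_spec

noncomputable instance : ChartedSpace (Fin N → ℂ) (PX N) where
  atlas := range ch
  chartAt P := ch (ci P)
  mem_chart_source P := ci_spec P
  chart_mem_atlas P := ⟨_, rfl⟩

theorem atlas_eq : atlas (Fin N → ℂ) (PX N) = range ch := rfl

theorem mem_atlas (i : Fin (N + 1)) : ch i ∈ atlas (Fin N → ℂ) (PX N) := ⟨i, rfl⟩

/-- the change of charts -/
theorem trans_apply (i j : Fin (N + 1)) (y : Fin N → ℂ) (k) :
    ch j ((ch i).symm y) k = ins i y (j.succAbove k) / ins i y j := by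
  rw [ch_apply, ch_symm, mk_ent, mk_ent]
  have h1 := nsq_ne (ins_ne i y)
  by_cases h : ins i y j = 0
  · simp [h]
  · have h2 : conj (ins i y j) ≠ 0 := by simpa using h
    field_simp

theorem trans_source (i j : Fin (N + 1)) (y : Fin N → ℂ) :
    y ∈ ((ch i).symm.trans (ch j)).source ↔ ins i y j ≠ 0 := by
  rw [OpenPartialHomeomorph.trans_source, OpenPartialHomeomorph.symm_source, ch_target, univ_inter]
  show (ch i).symm y ∈ {P : PX N | P.ent j j ≠ 0} ↔ _
  rw [mem_ofPred_eq, ch_symm, mk_ent]
  have h1 := nsq_ne (ins_ne i y)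
  constructor
  · intro h h2
    apply h
    simp [h2]
  · intro h
    have h2 : conj (ins i y j) ≠ 0 := by simpa using h
    exact div_ne_zero (mul_ne_zero h h2) h1

theorem ins_contDiff (𝕜 : Type*) [NontriviallyNormedField 𝕜] [NormedAlgebra 𝕜 ℂ]
    (n : WithTop ℕ∞) (i j : Fin (N + 1)) :
    ContDiff 𝕜 n (fun y : Fin N → ℂ => ins i y j) := by
  rcases Fin.eq_self_or_eq_succAbove i j with rfl | ⟨k, rfl⟩
  · simp only [ins_self]; exact contDiff_const
  · simp only [ins_succAbove]; exact contDiff_apply 𝕜 ℂ k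

instance : IsManifold 𝓘(ℂ, Fin N → ℂ) ω (PX N) := by
  apply isManifold_of_contDiffOn
  rintro _ _ ⟨i, rfl⟩ ⟨j, rfl⟩
  simp only [mfld_simps]
  have : ContDiffOn ℂ ω (fun (y : Fin N → ℂ) (k : Fin N) =>
      ins i y (j.succAbove k) / ins i y j) {y | ins i y j ≠ 0} := by
    refine contDiffOn_pi.2 fun k => ?_
    exact (ins_contDiff ℂ ω i _).contDiffOn.div (ins_contDiff ℂ ω i _).contDiffOn fun y hy => hy
  refine ContDiffOn.congr_mono this ?_ ?_
  · intro y hy
    funext k
    exact trans_apply i j y k
  · intro y hy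
    have : y ∈ ((ch i).symm.trans (ch j)).source := by
      simpa only [mfld_simps] using hy
    exact (trans_source i j y).1 this

/-- points `v ≠ 0` -/
instance : ConnectedSpace (PX N) := by
  rcases Nat.eq_zero_or_pos N with rfl | hN
  · have : Subsingleton (PX 0) := ⟨fun P Q => PX.ext' fun i j => by
      have h1 := P.tr
      have h2 := Q.tr
      simp only [Fin.sum_univ_succ, Finset.univ_eq_empty, Finset.sum_empty, add_zero] at h1 h2
      have hi : i = 0 := by omega
      have hj : j = 0 := by omega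
      subst hi; subst hj
      rw [h1, h2]⟩
    have : Nonempty (PX 0) := ⟨mk (fun _ => 1) (fun h => one_ne_zero (congrFun h 0))⟩
    infer_instance
  · have hpre : IsPreconnected ({0}ᶜ : Set (Fin (N + 1) → ℂ)) := by
      apply IsConnected.isPreconnected
      apply isConnected_compl_singleton_of_one_lt_rank
      rw [rank_real_of_complex, rank_fin_fun]
      norm_cast
      omega
    have hc : Continuous (fun v : ({0}ᶜ : Set (Fin (N + 1) → ℂ)) => mk v.1 v.2) :=
      mk_continuous continuous_subtype_val _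
    have hsurj : Function.Surjective (fun v : ({0}ᶜ : Set (Fin (N + 1) → ℂ)) => mk v.1 v.2) := by
      intro P
      refine ⟨⟨ins (ci P) (ch (ci P) P), ins_ne _ _⟩, ?_⟩
      exact (ch (ci P)).left_inv (ci_spec P)
    have : PreconnectedSpace ({0}ᶜ : Set (Fin (N + 1) → ℂ)) :=
      Subtype.preconnectedSpace hpre
    have h2 : PreconnectedSpace (PX N) := by
      constructor
      rw [← hsurj.range_eq]
      exact isPreconnected_range hc
    have : Nonempty (PX N) := ⟨mk (fun _ => 1) (fun h => one_ne_zero (congrFun h 0))⟩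
    exact { toPreconnectedSpace := h2, toNonempty := this }

end Pool.Agent.Seat73.PP
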