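import Mathlib

/-!
# Kähler forms, Hartogs figures and equicontinuous families: the definitions
-/

set_option autoImplicit false

open scoped Manifold ContDiff Topology

namespace Pool.Agent.Seat73.PP

/-- A Kähler form on a complex manifold `X` modelled on the complex vector space `E`, given by a real
`2`-form `form e` on (the image of) every chart `e` of `X`: the forms are smooth, invariant under
multiplication by `i`, positive, closed, and they agree on the overlaps of the charts. -/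
structure KahlerForm (E X : Type*) [NormedAddCommGroup E] [NormedSpace ℂ E] [TopologicalSpace X]
    [ChartedSpace E X] where
  /-- the form in the chart `e` -/
  form : OpenPartialHomeomorph X E → E → E [⋀^Fin 2]→L[ℝ] ℝ
  smooth : ∀ e ∈ atlas E X, ContDiffOn ℝ ∞ (form e) e.target
  inv : ∀ e ∈ atlas E X, ∀ y ∈ e.target, ∀ u v : E,
    form e y ![Complex.I • u, Complex.I • v] = form e y ![u, v]
  pos : ∀ e ∈ atlas E X, ∀ y ∈ e.target, ∀ u : E, u ≠ 0 → 0 < form e y ![u, Complex.I • u]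
  closed : ∀ e ∈ atlas E X, ∀ y ∈ e.target, extDeriv (form e) y = 0
  compat : ∀ e ∈ atlas E X, ∀ e' ∈ atlas E X, ∀ y ∈ (e.symm.trans e').source,
    form e y = (form e' (e' (e.symm y))).compContinuousLinearMap (fderiv ℝ (e' ∘ e.symm) y)

/-- The polydisk `Δ^(n+1)`. -/
def Polydisk (n : ℕ) : Set (Fin (n + 1) → ℂ) := {z | ∀ j, ‖z j‖ < 1}

/-- The Hartogs figure `H_n^1(r) = [Δ^n(1-r) × Δ] ∪ [Δ^n × A(r,1)]` in `ℂ^(n+1)`; the last coordinate
is the distinguished one. -/
def Hartogs (n : ℕ) (r : ℝ) : Set (Fin (n + 1) → ℂ) :=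
  {z | (∀ j : Fin n, ‖z j.castSucc‖ < 1 - r) ∧ ‖z (Fin.last n)‖ < 1} ∪
    {z | (∀ j : Fin n, ‖z j.castSucc‖ < 1) ∧ r < ‖z (Fin.last n)‖ ∧ ‖z (Fin.last n)‖ < 1}

/-- `d` is a distance which induces the topology of `X`. -/
structure IsDistance {X : Type*} [TopologicalSpace X] (d : X → X → ℝ) : Prop where
  eq_zero : ∀ x y, d x y = 0 ↔ x = y
  symm : ∀ x y, d x y = d y x
  triangle : ∀ x y z, d x z ≤ d x y + d y z
  nhds : ∀ x (U : Set X), U ∈ 𝓝 x ↔ ∃ ε > 0, ∀ y, d x y < ε → y ∈ U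

/-- The family `𝓕` of maps is equicontinuous on `U` with respect to the distance `d`. -/
def EquicontOn {n : ℕ} {X : Type*} (d : X → X → ℝ) (𝓕 : Set ((Fin (n + 1) → ℂ) → X))
    (U : Set (Fin (n + 1) → ℂ)) : Prop :=
  ∀ p ∈ U, ∀ ε > 0, ∃ δ > 0, ∀ f ∈ 𝓕, ∀ z ∈ U, ‖z - p‖ < δ → d (f z) (f p) < ε

end Pool.Agent.Seat73.PP
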