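import Pool.Agent.Seat73.PP.Basic
import Pool.Agent.Seat73.PP.Defs

/-!
# The Fubini-Study form
-/

set_option autoImplicit false

open scoped Manifold ContDiff Topology ComplexConjugate
open Set Filter

namespace Pool.Agent.Seat73.PP

variable {N : ℕ}

/-- hermitian product -/
def herm {M : ℕ} (u v : Fin M → ℂ) : ℂ := ∑ k, conj (u k) * v k

/-- `1 + |y|²` -/
noncomputable def qq (y : Fin N → ℂ) : ℝ := 1 + ∑ k, ((y k).re ^ 2 + (y k).im ^ 2)

theorem qq_pos (y : Fin N → ℂ) : 0 < qq y := by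
  unfold qq
  have : 0 ≤ ∑ k, ((y k).re ^ 2 + (y k).im ^ 2) := Finset.sum_nonneg fun _ _ => by positivity
  linarith

/-- real part of the `k`-th coordinate -/
noncomputable def rk (k : Fin N) : (Fin N → ℂ) →L[ℝ] ℝ :=
  Complex.reCLM.comp (ContinuousLinearMap.proj (R := ℝ) (φ := fun _ : Fin N => ℂ) k)
/-- imaginary part of the `k`-th coordinate -/
noncomputable def ik (k : Fin N) : (Fin N → ℂ) →L[ℝ] ℝ :=
  Complex.imCLM.comp (ContinuousLinearMap.proj (R := ℝ) (φ := fun _ : Fin N => ℂ) k)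

@[simp] theorem rk_apply (k : Fin N) (y) : rk k y = (y k).re := rfl
@[simp] theorem ik_apply (k : Fin N) (y) : ik k y = (y k).im := rfl

/-- `v ↦ Im ⟨y, v⟩` -/
noncomputable def LL (y : Fin N → ℂ) : (Fin N → ℂ) →L[ℝ] ℝ :=
  ∑ k, ((rk k y) • ik k - (ik k y) • rk k)

theorem LL_apply (y v : Fin N → ℂ) : LL y v = (herm y v).im := by
  unfold LL herm
  rw [Complex.im_sum]
  simp only [sum_apply, sub_apply,
    smul_apply, rk_apply, ik_apply, smul_eq_mul]
  refine Finset.sum_congr rfl fun k _ => ?_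
  simp [Complex.mul_im]
  ring

theorem LL_contDiff : ContDiff ℝ ∞ (LL (N := N)) := by
  unfold LL
  refine ContDiff.sum fun k _ => ?_
  exact ((rk k).contDiff.smul contDiff_const).sub ((ik k).contDiff.smul contDiff_const)

theorem qq_contDiff : ContDiff ℝ ∞ (qq (N := N)) := by
  have : qq (N := N) = fun y => 1 + ∑ k, ((rk k y) ^ 2 + (ik k y) ^ 2) := rfl
  rw [this]
  refine contDiff_const.add (ContDiff.sum fun k _ => ?_)
  exact ((rk k).contDiff.pow 2).add ((ik k).contDiff.pow 2)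

/-- the `1`-form `Im ⟨y, dy⟩ / (1 + |y|²)` -/
noncomputable def eta (y : Fin N → ℂ) : (Fin N → ℂ) [⋀^Fin 1]→L[ℝ] ℝ :=
  ContinuousAlternatingMap.ofSubsingletonLIE (𝕜 := ℝ) (E := Fin N → ℂ) (F := ℝ) (0 : Fin 1)
    ((qq y)⁻¹ • LL y)

theorem eta_apply (y : Fin N → ℂ) (v : Fin 1 → Fin N → ℂ) :
    eta y v = (qq y)⁻¹ * LL y (v 0) := rfl

theorem eta_contDiff : ContDiff ℝ ∞ (eta (N := N)) := by
  unfold eta
  refine (ContinuousAlternatingMap.ofSubsingletonLIE (𝕜 := ℝ) (E := Fin N → ℂ) (F := ℝ)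
    (0 : Fin 1)).contDiff.comp ?_
  exact (qq_contDiff.inv fun y => (qq_pos y).ne').smul LL_contDiff

/-- the Fubini-Study form in the affine charts -/
noncomputable def fs (y : Fin N → ℂ) : (Fin N → ℂ) [⋀^Fin 2]→L[ℝ] ℝ := extDeriv eta y

theorem fs_contDiff : ContDiff ℝ ∞ (fs (N := N)) := by
  have h : ContDiff ℝ ∞ (fderiv ℝ (eta (N := N))) := eta_contDiff.fderiv_right (by norm_cast)
  exact (ContinuousAlternatingMap.alternatizeUncurryFinCLM ℝ (Fin N → ℂ) ℝ).contDiff.comp h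

theorem fs_closed (y : Fin N → ℂ) : extDeriv fs y = 0 := by
  have h : extDeriv (extDeriv (eta (N := N))) = 0 :=
    extDeriv_extDeriv eta_contDiff (by
      rw [minSmoothness_of_isRCLikeNormedField]
      exact WithTop.coe_le_coe.2 le_top)
  exact congrFun h y

theorem herm_conj {M : ℕ} (u v : Fin M → ℂ) : conj (herm u v) = herm v u := by
  unfold herm
  rw [map_sum]
  refine Finset.sum_congr rfl fun k _ => ?_
  rw [map_mul, Complex.conj_conj, mul_comm]

theorem qq_hasFDerivAt (y : Fin N → ℂ) :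
    HasFDerivAt qq (∑ k, ((2 * rk k y) • rk k + (2 * ik k y) • ik k)) y := by
  have : qq (N := N) = fun y => 1 + ∑ k, ((rk k y) ^ 2 + (ik k y) ^ 2) := rfl
  rw [this]
  refine HasFDerivAt.const_add 1 ?_
  refine HasFDerivAt.fun_sum fun k _ => ?_
  have h1 := ((rk k).hasFDerivAt (x := y)).pow 2
  have h2 := ((ik k).hasFDerivAt (x := y)).pow 2
  have h3 := h1.fun_add h2
  simpa using h3

theorem sum_deriv (y u : Fin N → ℂ) :
    (∑ k, ((2 * rk k y) • rk k + (2 * ik k y) • ik k)) u = 2 * (herm y u).re := by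
  unfold herm
  rw [Complex.re_sum, Finset.mul_sum]
  simp only [sum_apply, add_apply,
    smul_apply, rk_apply, ik_apply, smul_eq_mul]
  refine Finset.sum_congr rfl fun k _ => ?_
  simp [Complex.mul_re]
  ring

theorem LL_swap (y v : Fin N → ℂ) : LL y v = - LL v y := by
  rw [LL_apply, LL_apply, ← herm_conj, Complex.conj_im]

theorem fderiv_eta (y u v : Fin N → ℂ) :
    fderiv ℝ (fun y => eta y ![v]) y u =
      (qq y)⁻¹ * (herm u v).im - (qq y ^ 2)⁻¹ * (2 * (herm y u).re) * (herm y v).im := by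
  have e : (fun y => eta y ![v]) = fun y => (qq y)⁻¹ * (- LL v y) := by
    funext y
    rw [eta_apply, ← LL_swap]
    rfl
  have h1 : HasFDerivAt (fun y => (qq y)⁻¹) _ y :=
    (hasDerivAt_inv (qq_pos y).ne').comp_hasFDerivAt y (qq_hasFDerivAt y)
  have h2 : HasFDerivAt (fun y => - LL v y) _ y := ((LL v).hasFDerivAt (x := y)).neg
  have h3 := h1.fun_mul h2
  rw [e, h3.fderiv]
  simp only [add_apply, smul_apply,
    neg_apply, smul_eq_mul, sum_deriv]
  rw [← LL_swap, ← LL_swap, LL_apply, LL_apply]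
  ring

theorem fs_apply (y u v : Fin N → ℂ) :
    fs y ![u, v] = 2 * ((qq y : ℂ) * herm u v - herm u y * herm y v).im / qq y ^ 2 := by
  have hd : DifferentiableAt ℝ (eta (N := N)) y := (eta_contDiff.differentiable (by simp)) y
  unfold fs
  rw [extDeriv_apply hd, Fin.sum_univ_two]
  have e0 : (fun x => eta x ((0 : Fin 2).removeNth ![u, v])) = fun x => eta x ![v] := by
    funext x; congr 1
  have e1 : (fun x => eta x ((1 : Fin 2).removeNth ![u, v])) = fun x => eta x ![u] := by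
    funext x; congr 1; funext i; fin_cases i; rfl
  simp only [e0, e1]
  have f0 : (![u, v] : Fin 2 → Fin N → ℂ) 0 = u := rfl
  have f1 : (![u, v] : Fin 2 → Fin N → ℂ) 1 = v := rfl
  rw [f0, f1, fderiv_eta, fderiv_eta]
  have h1 : (herm v u).im = - (herm u v).im := by rw [← herm_conj, Complex.conj_im]
  have h2 : (herm u y).re = (herm y u).re := by rw [← herm_conj, Complex.conj_re]
  have h3 : (herm u y).im = - (herm y u).im := by rw [← herm_conj, Complex.conj_im]
  have hq := (qq_pos y).ne'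
  rw [Complex.sub_im, Complex.mul_im, Complex.mul_im, Complex.ofReal_re, Complex.ofReal_im, h1, h2, h3]
  simp only [Fin.val_zero, pow_zero, one_smul, Fin.val_one, pow_one, neg_smul]
  field_simp
  ring

/-- insertion of `0` at the place `i` -/
def ins0 (i : Fin (N + 1)) (y : Fin N → ℂ) : Fin (N + 1) → ℂ := i.insertNth (0 : ℂ) y

@[simp] theorem ins0_self (i : Fin (N + 1)) (y : Fin N → ℂ) : ins0 i y i = 0 := by simp [ins0]
@[simp] theorem ins0_succAbove (i : Fin (N + 1)) (y : Fin N → ℂ) (k) :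
    ins0 i y (i.succAbove k) = y k := by simp [ins0]

/-- the Fubini-Study form in homogeneous coordinates -/
noncomputable def ww (Z U V : Fin (N + 1) → ℂ) : ℝ :=
  2 * ((nsq Z : ℂ) * herm U V - herm U Z * herm Z V).im / nsq Z ^ 2

theorem nsq_ins (i : Fin (N + 1)) (y : Fin N → ℂ) : nsq (ins i y) = qq y := by
  unfold nsq qq
  rw [Fin.sum_univ_succAbove _ i]
  simp only [ins_self, ins_succAbove, norm_one, one_pow]
  congr 1
  refine Finset.sum_congr rfl fun k _ => ?_
  rw [← Complex.normSq_eq_norm_sq, Complex.normSq_apply]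
  ring

theorem herm_ins0 (i : Fin (N + 1)) (u v : Fin N → ℂ) : herm (ins0 i u) (ins0 i v) = herm u v := by
  unfold herm
  rw [Fin.sum_univ_succAbove _ i]
  simp

theorem herm_ins (i : Fin (N + 1)) (u v : Fin N → ℂ) : herm (ins i u) (ins0 i v) = herm u v := by
  unfold herm
  rw [Fin.sum_univ_succAbove _ i]
  simp

theorem herm_ins' (i : Fin (N + 1)) (u v : Fin N → ℂ) : herm (ins0 i u) (ins i v) = herm u v := by
  unfold herm
  rw [Fin.sum_univ_succAbove _ i]
  simp

theorem fs_eq_ww (i : Fin (N + 1)) (y u v : Fin N → ℂ) :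
    fs y ![u, v] = ww (ins i y) (ins0 i u) (ins0 i v) := by
  rw [fs_apply, ww, nsq_ins, herm_ins0, herm_ins, herm_ins']

theorem herm_add_left {M : ℕ} (u u' v : Fin M → ℂ) : herm (u + u') v = herm u v + herm u' v := by
  unfold herm
  rw [← Finset.sum_add_distrib]
  refine Finset.sum_congr rfl fun k _ => ?_
  simp [map_add, add_mul]

theorem herm_add_right {M : ℕ} (u v v' : Fin M → ℂ) : herm u (v + v') = herm u v + herm u v' := by
  unfold herm
  rw [← Finset.sum_add_distrib]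
  refine Finset.sum_congr rfl fun k _ => ?_
  simp [mul_add]

theorem herm_smul_left {M : ℕ} (c : ℂ) (u v : Fin M → ℂ) : herm (c • u) v = conj c * herm u v := by
  unfold herm
  rw [Finset.mul_sum]
  refine Finset.sum_congr rfl fun k _ => ?_
  simp [mul_assoc]

theorem herm_smul_right {M : ℕ} (c : ℂ) (u v : Fin M → ℂ) : herm u (c • v) = c * herm u v := by
  unfold herm
  rw [Finset.mul_sum]
  refine Finset.sum_congr rfl fun k _ => ?_
  simp only [Pi.smul_apply, smul_eq_mul]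
  ring

theorem herm_self (Z : Fin (N + 1) → ℂ) : herm Z Z = (nsq Z : ℂ) := by
  unfold herm
  rw [← sum_self]
  exact Finset.sum_congr rfl fun k _ => mul_comm _ _

theorem nsq_smul (c : ℂ) (Z : Fin (N + 1) → ℂ) : nsq (c • Z) = Complex.normSq c * nsq Z := by
  unfold nsq
  rw [Finset.mul_sum]
  refine Finset.sum_congr rfl fun k _ => ?_
  simp only [Pi.smul_apply, smul_eq_mul, norm_mul, mul_pow, Complex.normSq_eq_norm_sq]

theorem ww_inv {Z : Fin (N + 1) → ℂ} (hZ : Z ≠ 0) (U V : Fin (N + 1) → ℂ) (c a b : ℂ) (hc : c ≠ 0) :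
    ww (c • Z) (c • U + a • Z) (c • V + b • Z) = ww Z U V := by
  have hn := (nsq_pos hZ).ne'
  have hcn : Complex.normSq c ≠ 0 := by simpa using hc
  have key : ((nsq (c • Z) : ℝ) : ℂ) * herm (c • U + a • Z) (c • V + b • Z) -
      herm (c • U + a • Z) (c • Z) * herm (c • Z) (c • V + b • Z) =
      ((Complex.normSq c ^ 2 : ℝ) : ℂ) * ((nsq Z : ℂ) * herm U V - herm U Z * herm Z V) := by
    rw [nsq_smul]
    simp only [herm_add_left, herm_add_right, herm_smul_left, herm_smul_right, herm_self]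
    push_cast
    rw [← Complex.mul_conj]
    ring
  rw [ww, key, nsq_smul, Complex.im_ofReal_mul, ww]
  field_simp

theorem ins0_add (i : Fin (N + 1)) (u v : Fin N → ℂ) : ins0 i (u + v) = ins0 i u + ins0 i v := by
  funext j
  rcases Fin.eq_self_or_eq_succAbove i j with rfl | ⟨k, rfl⟩ <;> simp

theorem ins0_smul (i : Fin (N + 1)) (c : ℂ) (v : Fin N → ℂ) : ins0 i (c • v) = c • ins0 i v := by
  funext j
  rcases Fin.eq_self_or_eq_succAbove i j with rfl | ⟨k, rfl⟩ <;> simp

/-- derivative of the components of `ins` -/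
theorem ins_hasFDerivAt (i j : Fin (N + 1)) (y : Fin N → ℂ) :
    ∃ L : (Fin N → ℂ) →L[ℝ] ℂ, HasFDerivAt (fun y => ins i y j) L y ∧ ∀ u, L u = ins0 i u j := by
  rcases Fin.eq_self_or_eq_succAbove i j with rfl | ⟨k, rfl⟩
  · refine ⟨0, ?_, fun u => by simp⟩
    simp only [ins_self]
    exact hasFDerivAt_const _ _
  · refine ⟨ContinuousLinearMap.proj (R := ℝ) (φ := fun _ : Fin N => ℂ) k, ?_, fun u => by simp⟩
    simp only [ins_succAbove]
    exact (ContinuousLinearMap.proj (R := ℝ) (φ := fun _ : Fin N => ℂ) k).hasFDerivAt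

/-- the derivative of the change of charts -/
theorem fderiv_trans (i j : Fin (N + 1)) (y : Fin N → ℂ) (hy : ins i y j ≠ 0) (u : Fin N → ℂ) :
    ins0 j (fderiv ℝ (ch j ∘ (ch i).symm) y u) =
      (ins i y j)⁻¹ • ins0 i u + (-(ins0 i u j / ins i y j ^ 2)) • ins i y := by
  have e : (ch j ∘ (ch i).symm : (Fin N → ℂ) → Fin N → ℂ) =
      fun y k => ins i y (j.succAbove k) * (ins i y j)⁻¹ := by
    funext y k
    show ch j ((ch i).symm y) k = _
    rw [trans_apply, div_eq_mul_inv]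
  obtain ⟨L, hL, hL'⟩ := ins_hasFDerivAt i j y
  have hinv : HasFDerivAt (fun y => (ins i y j)⁻¹) _ y :=
    (hasFDerivAt_inv' (𝕜 := ℝ) hy).comp y hL
  have hpi : ∀ k, DifferentiableAt ℝ (fun y => ins i y (j.succAbove k) * (ins i y j)⁻¹) y := by
    intro k
    obtain ⟨M, hM, hM'⟩ := ins_hasFDerivAt i (j.succAbove k) y
    exact (hM.fun_mul hinv).differentiableAt
  funext l
  rcases Fin.eq_self_or_eq_succAbove j l with rfl | ⟨k, rfl⟩
  · simp only [ins0_self, Pi.add_apply, Pi.smul_apply, smul_eq_mul]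
    field_simp
    ring
  · rw [ins0_succAbove, e]
    obtain ⟨M, hM, hM'⟩ := ins_hasFDerivAt i (j.succAbove k) y
    have h1 := fderiv_pi hpi
    have h2 : fderiv ℝ (fun y k => ins i y (j.succAbove k) * (ins i y j)⁻¹) y u k =
        fderiv ℝ (fun y => ins i y (j.succAbove k) * (ins i y j)⁻¹) y u := by
      rw [h1]
      rfl
    rw [h2, (hM.fun_mul hinv).fderiv]
    simp only [add_apply, smul_apply, ContinuousLinearMap.comp_apply, hM', hL', smul_eq_mul,
      Pi.add_apply, Pi.smul_apply]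
    simp [ContinuousLinearMap.mulLeftRight_apply]
    field_simp
    ring

theorem fs_compat (i j : Fin (N + 1)) (y : Fin N → ℂ) (hy : ins i y j ≠ 0) :
    fs y = (fs (ch j ((ch i).symm y))).compContinuousLinearMap
      (fderiv ℝ (ch j ∘ (ch i).symm) y) := by
  ext w
  obtain ⟨u, v, rfl⟩ : ∃ u v, w = ![u, v] := ⟨w 0, w 1, by ext i; fin_cases i <;> rfl⟩
  have e : (fs (ch j ((ch i).symm y))).compContinuousLinearMap
      (fderiv ℝ (ch j ∘ (ch i).symm) y) ![u, v] = fs (ch j ((ch i).symm y))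
        ![fderiv ℝ (ch j ∘ (ch i).symm) y u, fderiv ℝ (ch j ∘ (ch i).symm) y v] := by
    rw [ContinuousAlternatingMap.compContinuousLinearMap_apply]
    congr 1
    funext k
    fin_cases k <;> rfl
  rw [e, fs_eq_ww i, fs_eq_ww j, fderiv_trans i j y hy, fderiv_trans i j y hy]
  have hZ : ins j (ch j ((ch i).symm y)) = (ins i y j)⁻¹ • ins i y := by
    funext l
    rcases Fin.eq_self_or_eq_succAbove j l with rfl | ⟨k, rfl⟩
    · simp [inv_mul_cancel₀ hy]
    · rw [ins_succAbove, trans_apply, Pi.smul_apply, smul_eq_mul, div_eq_inv_mul]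
  rw [hZ]
  have key : ∀ (c d : ℂ) (U Z : Fin (N + 1) → ℂ), c ≠ 0 → c • U + d • Z = c • U + d • Z :=
    fun _ _ _ _ _ => rfl
  exact (ww_inv (ins_ne i y) _ _ _ _ _ (inv_ne_zero hy)).symm

theorem fs_inv (y u v : Fin N → ℂ) : fs y ![Complex.I • u, Complex.I • v] = fs y ![u, v] := by
  rw [fs_apply, fs_apply]
  simp only [herm_smul_left, herm_smul_right, Complex.conj_I]
  congr 3
  linear_combination (-(qq y : ℂ) * herm u v + herm u y * herm y v) * Complex.I_mul_I

theorem fs_pos (y u : Fin N → ℂ) (hu : u ≠ 0) : 0 < fs y ![u, Complex.I • u] := by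
  rw [fs_apply]
  have h1 : (qq y : ℂ) * herm u (Complex.I • u) - herm u y * herm y (Complex.I • u) =
      Complex.I * ((qq y : ℂ) * herm u u - herm u y * herm y u) := by
    simp only [herm_smul_right]
    ring
  have h2 : herm u y * herm y u = ((‖herm y u‖ ^ 2 : ℝ) : ℂ) := by
    rw [← herm_conj y u, mul_comm, Complex.mul_conj, Complex.normSq_eq_norm_sq]
  have h3 : herm u u = ((∑ k, ‖u k‖ ^ 2 : ℝ) : ℂ) := by
    unfold herm
    rw [Complex.ofReal_sum]
    refine Finset.sum_congr rfl fun k _ => ?_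
    rw [mul_comm, Complex.mul_conj, Complex.normSq_eq_norm_sq]
  have h4 : (Complex.I * ((qq y : ℂ) * herm u u - herm u y * herm y u)).im =
      qq y * ∑ k, ‖u k‖ ^ 2 - ‖herm y u‖ ^ 2 := by
    rw [h2, h3, ← Complex.ofReal_mul, ← Complex.ofReal_sub, Complex.I_mul_im, Complex.ofReal_re]
  rw [h1, h4]
  have h5 : qq y = 1 + ∑ k, ‖y k‖ ^ 2 := by
    unfold qq
    congr 1
    refine Finset.sum_congr rfl fun k _ => ?_
    rw [← Complex.normSq_eq_norm_sq, Complex.normSq_apply]
    ring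
  have h6 : ‖herm y u‖ ^ 2 ≤ (∑ k, ‖y k‖ ^ 2) * ∑ k, ‖u k‖ ^ 2 := by
    have h7 : ‖herm y u‖ ≤ ∑ k, ‖y k‖ * ‖u k‖ := by
      unfold herm
      refine (norm_sum_le _ _).trans (le_of_eq (Finset.sum_congr rfl fun k _ => ?_))
      rw [norm_mul, Complex.norm_conj]
    have h8 : (∑ k, ‖y k‖ * ‖u k‖) ^ 2 ≤ (∑ k, ‖y k‖ ^ 2) * ∑ k, ‖u k‖ ^ 2 :=
      Finset.sum_mul_sq_le_sq_mul_sq _ _ _
    exact (pow_le_pow_left₀ (norm_nonneg _) h7 2).trans h8
  have h9 : 0 < ∑ k, ‖u k‖ ^ 2 := by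
    obtain ⟨k, hk⟩ : ∃ k, u k ≠ 0 := by
      by_contra h
      push Not at h
      exact hu (funext h)
    have : 0 < ‖u k‖ ^ 2 := by positivity
    exact this.trans_le (Finset.single_le_sum (f := fun k => ‖u k‖ ^ 2) (fun _ _ => by positivity)
      (Finset.mem_univ k))
  have h10 : 0 < qq y * ∑ k, ‖u k‖ ^ 2 - ‖herm y u‖ ^ 2 := by
    rw [h5]
    nlinarith
  have := qq_pos y
  positivity

/-- The Fubini-Study form. -/
noncomputable def fubiniStudy (N : ℕ) : KahlerForm (Fin N → ℂ) (PX N) where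
  form _ := fs
  smooth _ _ := fs_contDiff.contDiffOn
  inv _ _ y _ u v := fs_inv y u v
  pos _ _ y _ u hu := fs_pos y u hu
  closed _ _ y _ := fs_closed y
  compat := by
    rintro _ ⟨i, rfl⟩ _ ⟨j, rfl⟩ y hy
    exact fs_compat i j y ((trans_source i j y).1 hy)

end Pool.Agent.Seat73.PP
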