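import Pool.Agent.Seat73.PP.Kahler

/-!
# A family of maps to the projective plane
-/

set_option autoImplicit false

open scoped Manifold ContDiff Topology ComplexConjugate
open Set Filter

namespace Pool.Agent.Seat73.PP

/-- metric space structure -/
@[instance_reducible]
noncomputable def metricOf {X : Type*} [TopologicalSpace X] {d : X → X → ℝ} (hd : IsDistance d) :
    MetricSpace X :=
  MetricSpace.ofDistTopology d (fun x => (hd.eq_zero x x).2 rfl) hd.symm hd.triangle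
    (fun s => by
      rw [isOpen_iff_mem_nhds]
      exact forall₂_congr fun x _ => hd.nhds x s) (fun x y h => (hd.eq_zero x y).1 h)

theorem exists_distance {X : Type*} [TopologicalSpace X] [CompactSpace X] [T2Space X]
    [SecondCountableTopology X] : ∃ d : X → X → ℝ, IsDistance d := by
  let _ := TopologicalSpace.metrizableSpaceMetric X
  refine ⟨dist, ⟨fun x y => dist_eq_zero, dist_comm, dist_triangle, fun x U => ?_⟩⟩
  rw [Metric.mem_nhds_iff]
  refine exists_congr fun ε => and_congr_right fun _ => ?_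
  constructor
  · intro h y hy
    exact h (by rwa [Metric.mem_ball, dist_comm])
  · intro h y hy
    exact h y (by rwa [Metric.mem_ball, dist_comm] at hy)

variable {N : ℕ}

theorem mk_contMDiff {E' : Type*} [NormedAddCommGroup E'] [NormedSpace ℂ E']
    (v : E' → Fin (N + 1) → ℂ) (hv : ContDiff ℂ ω v) (h : ∀ z, v z ≠ 0) :
    ContMDiff 𝓘(ℂ, E') 𝓘(ℂ, Fin N → ℂ) ω (fun z => mk (v z) (h z)) := by
  intro z
  obtain ⟨i, hi⟩ : ∃ i, v z i ≠ 0 := by
    by_contra hcon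
    push Not at hcon
    exact h z (funext hcon)
  have hvi : ∀ j, ContDiff ℂ ω (fun z => v z j) := fun j => contDiff_pi.1 hv j
  have hg : ContDiffAt ℂ ω (fun z (k : Fin N) => v z (i.succAbove k) / v z i) z := by
    refine contDiffAt_pi.2 fun k => ?_
    exact (hvi _).contDiffAt.div (hvi _).contDiffAt hi
  have hs : ContMDiffAt 𝓘(ℂ, Fin N → ℂ) 𝓘(ℂ, Fin N → ℂ) ω (ch i).symm
      ((fun z (k : Fin N) => v z (i.succAbove k) / v z i) z) := by
    have := contMDiffOn_symm_of_mem_maximalAtlas (I := 𝓘(ℂ, Fin N → ℂ)) (n := ω)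
      (IsManifold.subset_maximalAtlas (mem_atlas i))
    exact this.contMDiffAt univ_mem
  have hcomp := hs.comp z hg.contMDiffAt
  refine hcomp.congr_of_eventuallyEq ?_
  have hev : ∀ᶠ w in 𝓝 z, v w i ≠ 0 :=
    ((hvi i).continuous.continuousAt).eventually_ne hi
  filter_upwards [hev] with w hw
  show mk (v w) (h w) = (ch i).symm _
  rw [ch_symm]
  refine mk_eq _ _ (v w i) fun j => ?_
  rcases Fin.eq_self_or_eq_succAbove i j with rfl | ⟨k, rfl⟩
  · simp
  · rw [ins_succAbove, mul_div_cancel₀ _ hw]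

/-- the vector `(z_0 - a, z_n, c)` -/
def vec (n : ℕ) (hn : 1 ≤ n) (a : ℝ) (c : ℂ) (z : Fin (n + 1) → ℂ) : Fin 3 → ℂ :=
  ![z (⟨0, hn⟩ : Fin n).castSucc - a, z (Fin.last n), c]

theorem vec_ne {n : ℕ} {hn : 1 ≤ n} {a : ℝ} {c : ℂ} (hc : c ≠ 0) (z : Fin (n + 1) → ℂ) :
    vec n hn a c z ≠ 0 := by
  intro h
  exact hc (congrFun h 2)

theorem vec_contDiff (n : ℕ) (hn : 1 ≤ n) (a : ℝ) (c : ℂ) : ContDiff ℂ ω (vec n hn a c) := by
  unfold vec
  refine contDiff_pi.2 fun i => ?_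
  fin_cases i
  · exact (contDiff_apply ℂ ℂ _).sub contDiff_const
  · exact contDiff_apply ℂ ℂ _
  · exact contDiff_const

/-- the parameter `1 / (k + 1)` -/
noncomputable def cc (k : ℕ) : ℂ := ((1 / ((k : ℝ) + 1) : ℝ) : ℂ)

theorem cc_ne (k : ℕ) : cc k ≠ 0 := by
  unfold cc
  rw [Ne, Complex.ofReal_eq_zero]
  positivity

theorem cc_norm (k : ℕ) : ‖cc k‖ = 1 / ((k : ℝ) + 1) := by
  unfold cc
  rw [Complex.norm_real, Real.norm_of_nonneg (by positivity)]

theorem cc_norm_le (k : ℕ) : ‖cc k‖ ≤ 1 := by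
  rw [cc_norm, div_le_one (by positivity)]
  have : (0 : ℝ) ≤ k := by positivity
  linarith

/-- the maps `[z_0 - a : z_n : 1 / (k + 1)]` -/
noncomputable def fk (n : ℕ) (hn : 1 ≤ n) (a : ℝ) (k : ℕ) (z : Fin (n + 1) → ℂ) : PX 2 :=
  mk (vec n hn a (cc k) z) (vec_ne (cc_ne k) z)

theorem unif {c C : ℝ} (hc : 0 < c) {d : PX N → PX N → ℝ} (hd : IsDistance d) {ε : ℝ}
    (hε : 0 < ε) : ∃ δ > 0, ∀ (v w : Fin (N + 1) → ℂ) (hv : v ≠ 0) (hw : w ≠ 0),
      c ≤ ‖v‖ → ‖v‖ ≤ C → c ≤ ‖w‖ → ‖w‖ ≤ C → ‖v - w‖ < δ → d (mk v hv) (mk w hw) < ε := by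
  let _ := metricOf hd
  set K : Set (Fin (N + 1) → ℂ) := {v | c ≤ ‖v‖} ∩ Metric.closedBall 0 C with hK
  have hKc : IsCompact K :=
    (isCompact_closedBall _ _).inter_left (isClosed_le continuous_const continuous_norm)
  have hne : ∀ v : K, (v : Fin (N + 1) → ℂ) ≠ 0 := by
    rintro ⟨v, hv⟩ h
    have h1 : c ≤ ‖v‖ := hv.1
    have h2 : v = 0 := h
    rw [h2, norm_zero] at h1
    linarith
  have : CompactSpace K := isCompact_iff_compactSpace.1 hKc
  have hcont : Continuous fun v : K => mk v.1 (hne v) := mk_continuous continuous_subtype_val _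
  have hu := CompactSpace.uniformContinuous_of_continuous hcont
  rw [Metric.uniformContinuous_iff] at hu
  obtain ⟨δ, hδ, h⟩ := hu ε hε
  refine ⟨δ, hδ, fun v w hv hw h1 h2 h3 h4 h5 => ?_⟩
  exact @h ⟨v, h1, by simpa using h2⟩ ⟨w, h3, by simpa using h4⟩
    (by rw [Subtype.dist_eq, dist_eq_norm]; exact h5)

theorem vec_bounds {n : ℕ} (hn : 1 ≤ n) {r : ℝ} (hr : 0 < r) (hr1 : r < 1) {c : ℂ}
    (hc : ‖c‖ ≤ 1) {z : Fin (n + 1) → ℂ} (hz : z ∈ Hartogs n r) :
    r / 2 ≤ ‖vec n hn (1 - r / 2) c z‖ ∧ ‖vec n hn (1 - r / 2) c z‖ ≤ 2 := by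
  have ha : ‖((1 - r / 2 : ℝ) : ℂ)‖ = 1 - r / 2 := by
    rw [Complex.norm_real, Real.norm_of_nonneg (by linarith)]
  have h0 : ‖z (⟨0, hn⟩ : Fin n).castSucc‖ < 1 ∧ ‖z (Fin.last n)‖ < 1 := by
    rcases hz with ⟨h1, h2⟩ | ⟨h1, h2, h3⟩
    · exact ⟨(h1 _).trans_le (by linarith), h2⟩
    · exact ⟨h1 _, h3⟩
  constructor
  · rcases hz with ⟨h1, -⟩ | ⟨-, h2, -⟩
    · have h3 := norm_le_pi_norm (vec n hn (1 - r / 2) c z) 0
      have h4 : ‖vec n hn (1 - r / 2) c z 0‖ =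
        ‖z (⟨0, hn⟩ : Fin n).castSucc - ((1 - r / 2 : ℝ) : ℂ)‖ := rfl
      have h5 := norm_sub_norm_le ((1 - r / 2 : ℝ) : ℂ) (z (⟨0, hn⟩ : Fin n).castSucc)
      rw [norm_sub_rev, ha] at h5
      have h6 := h1 ⟨0, hn⟩
      rw [h4] at h3
      linarith
    · have h3 := norm_le_pi_norm (vec n hn (1 - r / 2) c z) 1
      have h4 : ‖vec n hn (1 - r / 2) c z 1‖ = ‖z (Fin.last n)‖ := rfl
      rw [h4] at h3
      linarith
  · refine (pi_norm_le_iff_of_nonneg (by norm_num)).2 fun i => ?_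
    fin_cases i
    · show ‖z (⟨0, hn⟩ : Fin n).castSucc - ((1 - r / 2 : ℝ) : ℂ)‖ ≤ 2
      refine (norm_sub_le _ _).trans ?_
      rw [ha]
      linarith [h0.1]
    · show ‖z (Fin.last n)‖ ≤ 2
      linarith [h0.2]
    · show ‖c‖ ≤ 2
      linarith

theorem vec_sub {n : ℕ} (hn : 1 ≤ n) (a : ℝ) (c : ℂ) (z p : Fin (n + 1) → ℂ) :
    ‖vec n hn a c z - vec n hn a c p‖ ≤ ‖z - p‖ := by
  refine (pi_norm_le_iff_of_nonneg (norm_nonneg _)).2 fun i => ?_
  fin_cases i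
  · show ‖(z (⟨0, hn⟩ : Fin n).castSucc - (a : ℂ)) - (p (⟨0, hn⟩ : Fin n).castSucc - (a : ℂ))‖ ≤ _
    rw [sub_sub_sub_cancel_right]
    exact norm_le_pi_norm (z - p) _
  · exact norm_le_pi_norm (z - p) (Fin.last n)
  · show ‖c - c‖ ≤ _
    simp

theorem equi {n : ℕ} (hn : 1 ≤ n) {r : ℝ} (hr : 0 < r) (hr1 : r < 1) {d : PX 2 → PX 2 → ℝ}
    (hd : IsDistance d) : EquicontOn d (range (fk n hn (1 - r / 2))) (Hartogs n r) := by
  intro p hp ε hε
  obtain ⟨δ, hδ, h⟩ := unif (N := 2) (c := r / 2) (C := 2) (by linarith) hd hε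
  refine ⟨δ, hδ, ?_⟩
  rintro _ ⟨k, rfl⟩ z hz hzp
  obtain ⟨h1, h2⟩ := vec_bounds hn hr hr1 (cc_norm_le k) hz
  obtain ⟨h3, h4⟩ := vec_bounds hn hr hr1 (cc_norm_le k) hp
  exact h _ _ _ _ h1 h2 h3 h4 ((vec_sub hn _ _ z p).trans_lt hzp)

/-- the point `(a, 0, …, 0)` -/
def pt (n : ℕ) (hn : 1 ≤ n) (a : ℝ) : Fin (n + 1) → ℂ :=
  Function.update 0 (⟨0, hn⟩ : Fin n).castSucc (a : ℂ)

theorem pt_last (n : ℕ) (hn : 1 ≤ n) (a : ℝ) : pt n hn a (Fin.last n) = 0 := by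
  unfold pt
  rw [Function.update_of_ne]
  · rfl
  · exact (Fin.castSucc_lt_last _).ne'

theorem pt_zero (n : ℕ) (hn : 1 ≤ n) (a : ℝ) : pt n hn a (⟨0, hn⟩ : Fin n).castSucc = a := by
  unfold pt
  rw [Function.update_self]

theorem pt_mem {n : ℕ} (hn : 1 ≤ n) {a : ℝ} (h0 : 0 ≤ a) (h1 : a < 1) :
    pt n hn a ∈ Polydisk n := by
  intro j
  unfold pt
  by_cases h : j = (⟨0, hn⟩ : Fin n).castSucc
  · subst h
    rw [Function.update_self, Complex.norm_real, Real.norm_of_nonneg h0]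
    exact h1
  · rw [Function.update_of_ne h]
    simp

theorem vec_pt {n : ℕ} (hn : 1 ≤ n) (a b : ℝ) (c : ℂ) :
    vec n hn a c (pt n hn b) = ![((b - a : ℝ) : ℂ), 0, c] := by
  unfold vec
  rw [pt_last, pt_zero]
  push_cast
  rfl

theorem not_equi {n : ℕ} (hn : 1 ≤ n) {a : ℝ} (h0 : 0 ≤ a) (h1 : a < 1)
    {d : PX 2 → PX 2 → ℝ} (hd : IsDistance d) :
    ¬ EquicontOn d (range (fk n hn a)) (Polydisk n) := by
  intro h
  have hQ : (![0, 0, 1] : Fin 3 → ℂ) ≠ 0 := fun h => one_ne_zero (congrFun h 2)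
  have hQ' : (![1, 0, 0] : Fin 3 → ℂ) ≠ 0 := fun h => one_ne_zero (congrFun h 0)
  set Q := mk (N := 2) ![0, 0, 1] hQ with hQd
  set Q' := mk (N := 2) ![1, 0, 0] hQ' with hQd'
  have hne : Q ≠ Q' := by
    intro he
    have h2 : Q.ent 0 0 = Q'.ent 0 0 := by rw [he]
    rw [mk_ent, mk_ent] at h2
    simp [nsq, Fin.sum_univ_three] at h2
  have hnn : ∀ x y, 0 ≤ d x y := by
    intro x y
    have h2 := hd.triangle x y x
    rw [(hd.eq_zero x x).2 rfl, hd.symm y x] at h2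
    linarith
  have hpos : 0 < d Q' Q := lt_of_le_of_ne (hnn _ _) fun he => hne ((hd.eq_zero _ _).1 he.symm).symm
  obtain ⟨δ, hδ, hd'⟩ := h (pt n hn a) (pt_mem hn h0 h1) (d Q' Q / 2) (by linarith)
  set η := min (δ / 2) ((1 - a) / 2) with hη
  have hη0 : 0 < η := lt_min (by linarith) (by linarith)
  have hη1 : a + η < 1 := by
    have := min_le_right (δ / 2) ((1 - a) / 2)
    linarith
  have hη2 : η < δ := by
    have := min_le_left (δ / 2) ((1 - a) / 2)
    linarith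
  have hz : ‖pt n hn (a + η) - pt n hn a‖ < δ := by
    refine (pi_norm_lt_iff hδ).2 fun j => ?_
    by_cases hj : j = (⟨0, hn⟩ : Fin n).castSucc
    · subst hj
      rw [Pi.sub_apply, pt_zero, pt_zero, ← Complex.ofReal_sub, Complex.norm_real,
        add_sub_cancel_left, Real.norm_of_nonneg hη0.le]
      exact hη2
    · have e : ∀ b : ℝ, pt n hn b j = 0 := fun b => by
        unfold pt
        rw [Function.update_of_ne hj]
        rfl
      rw [Pi.sub_apply, e, e, sub_zero, norm_zero]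
      exact hδ
  -- the values
  have e1 : ∀ k, fk n hn a k (pt n hn a) = Q := by
    intro k
    unfold fk
    refine mk_eq _ _ (cc k) fun i => ?_
    rw [vec_pt]
    fin_cases i <;> simp
  have hcont : Continuous fun c : ℂ => mk (N := 2) ![((η : ℝ) : ℂ), 0, c]
      (fun h => hη0.ne' (Complex.ofReal_eq_zero.1 (congrFun h 0))) := by
    apply mk_continuous
    refine continuous_pi fun i => ?_
    fin_cases i
    · exact continuous_const
    · exact continuous_const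
    · exact continuous_id
  have hlim : Tendsto (fun k => fk n hn a k (pt n hn (a + η))) atTop (𝓝 Q') := by
    have hcc : Tendsto cc atTop (𝓝 0) := by
      rw [tendsto_zero_iff_norm_tendsto_zero]
      simp only [cc_norm]
      exact tendsto_one_div_add_atTop_nhds_zero_nat
    have h3 := (hcont.tendsto 0).comp hcc
    have e2 : mk (N := 2) ![((η : ℝ) : ℂ), 0, 0]
      (fun h => hη0.ne' (Complex.ofReal_eq_zero.1 (congrFun h 0))) = Q' := by
      refine mk_eq _ _ ((η : ℝ) : ℂ) fun i => ?_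
      fin_cases i <;> simp
    rw [e2] at h3
    refine h3.congr fun k => ?_
    have e3 : ∀ i, (![((η : ℝ) : ℂ), 0, cc k] : Fin 3 → ℂ) i =
        1 * vec n hn a (cc k) (pt n hn (a + η)) i := by
      intro i
      rw [vec_pt]
      fin_cases i <;> simp
    exact mk_eq (vec_ne (cc_ne k) _)
      (fun h => hη0.ne' (Complex.ofReal_eq_zero.1 (congrFun h 0))) 1 e3
  have hev : ∀ᶠ k in atTop, d Q' (fk n hn a k (pt n hn (a + η))) < d Q' Q / 2 := by
    have h4 : {y | d Q' y < d Q' Q / 2} ∈ 𝓝 Q' := (hd.nhds Q' _).2 ⟨d Q' Q / 2, by linarith,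
      fun y hy => hy⟩
    exact hlim h4
  obtain ⟨k, hk⟩ := hev.exists
  have h5 := hd' _ ⟨k, rfl⟩ (pt n hn (a + η)) (pt_mem hn (by linarith) hη1) hz
  rw [e1] at h5
  have h6 := hd.triangle Q' (fk n hn a k (pt n hn (a + η))) Q
  linarith

end Pool.Agent.Seat73.PP
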